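import Pool.Agent.H.MP_4a5b11_an.A

namespace Pool.Agent.H.MP_f54a22_an
open Set Pool.Agent.H.MP_4a5b11_an

def R (d v : ℝ) : Set ℝ := {t | 0 ≤ t ∧ t ≤ 1 ∧ T t + d * t = v}

noncomputable def N (d v : ℝ) : ℕ∞ := (R d v).encard

theorem mem0 {d v t : ℝ} (h0 : 0 ≤ t) (h1 : t ≤ 1) : t / 2 ∈ R d v ↔ t ∈ R (d + 1) (2 * v) := by
  have := T_half0 h0 h1
  simp only [R, mem_ofPred_eq, this]
  constructor
  · rintro ⟨-, -, h⟩; exact ⟨h0, h1, by linarith⟩
  · rintro ⟨-, -, h⟩; exact ⟨by linarith, by linarith, by linarith⟩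

theorem mem1 {d v t : ℝ} (h0 : 0 ≤ t) (h1 : t ≤ 1) :
    (1 + t) / 2 ∈ R d v ↔ t ∈ R (d - 1) (2 * v - d - 1) := by
  have := T_half1 h0 h1
  simp only [R, mem_ofPred_eq, this]
  constructor
  · rintro ⟨-, -, h⟩; exact ⟨h0, h1, by linarith⟩
  · rintro ⟨-, -, h⟩; exact ⟨by linarith, by linarith, by linarith⟩

theorem R_eq (d v : ℝ) : R d v = (fun t => t / 2) '' R (d + 1) (2 * v) ∪
    (fun t => (1 + t) / 2) '' R (d - 1) (2 * v - d - 1) := by
  ext t
  constructor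
  · intro ht
    have h0 := ht.1
    have h1 := ht.2.1
    rcases le_total t (1 / 2) with h | h
    · left
      have e : 2 * t / 2 = t := by ring
      exact ⟨2 * t, (mem0 (by linarith) (by linarith)).1 (by rwa [e]), e⟩
    · right
      have e : (1 + (2 * t - 1)) / 2 = t := by ring
      exact ⟨2 * t - 1, (mem1 (by linarith) (by linarith)).1 (by rwa [e]), e⟩
  · rintro (⟨s, hs, rfl⟩ | ⟨s, hs, rfl⟩)
    · exact (mem0 hs.1 hs.2.1).2 hs
    · exact (mem1 hs.1 hs.2.1).2 hs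

theorem N_split {d v : ℝ} (h : 2 * v ≠ d + 1) :
    N d v = N (d + 1) (2 * v) + N (d - 1) (2 * v - d - 1) := by
  unfold N
  rw [R_eq d v, encard_union_eq, Function.Injective.encard_image, Function.Injective.encard_image]
  · intro a b h; simp only at h; linarith
  · intro a b h; simp only at h; linarith
  · rw [disjoint_left]
    rintro _ ⟨a, ha, rfl⟩ ⟨b, hb, hab⟩
    simp only at hab
    have hb0 : b = 0 := by linarith [ha.2.1, hb.1]
    have := hb.2.2
    rw [hb0, T_zero] at this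
    exact h (by linarith)

theorem R_neg {d v : ℝ} (hd : 0 ≤ d) (hv : v < 0) : R d v = ∅ :=
  eq_empty_of_forall_notMem fun t ht => by
    have := T_nonneg t
    have := mul_nonneg hd ht.1
    linarith [ht.2.2]

theorem R_top (e : ℕ) {d v : ℝ} (hd : d = e) (hv : d + 2 / 3 / 2 ^ e < v) : R d v = ∅ :=
  eq_empty_of_forall_notMem fun t ht => by
    have h2 := T_lin e (1 - t) (by linarith [ht.2.1]) (by linarith [ht.1])
    rw [T_sym, ← hd] at h2
    linarith [ht.2.2]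

theorem N_neg {d v : ℝ} (hd : 0 ≤ d) (hv : v < 0) : N d v = 0 := by
  rw [N, R_neg hd hv, encard_empty]

theorem N_top (e : ℕ) {d v : ℝ} (hd : d = e) (hv : d + 2 / 3 / 2 ^ e < v) : N d v = 0 := by
  rw [N, R_top e hd hv, encard_empty]

theorem N_sym (d v : ℝ) : N (-d) (v - d) = N d v := by
  have : R (-d) (v - d) = (fun t => 1 - t) '' R d v := by
    ext t
    constructor
    · rintro ⟨h0, h1, h⟩
      exact ⟨1 - t, ⟨by linarith, by linarith, by rw [T_sym]; linarith⟩, by simp⟩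
    · rintro ⟨s, ⟨h0, h1, h⟩, rfl⟩
      exact ⟨by simp only; linarith, by simp only; linarith, by simp only; rw [T_sym]; linarith⟩
  rw [N, this, Function.Injective.encard_image _ _, N]
  intro a b h; simp only at h; linarith

theorem N_zero {v : ℝ} (h : v ≠ 1 / 2) : N 0 v = 2 * N 1 (2 * v) := by
  rw [N_split (d := 0) (fun h' => h (by linarith)), two_mul (N _ _), zero_add, zero_sub, sub_zero,
    N_sym]

theorem N_up {d v : ℝ} (hd : 1 ≤ d) (h : 2 * v < d + 1) : N d v = N (d + 1) (2 * v) := by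
  rw [N_split h.ne, N_neg (d := d - 1) (by linarith) (by linarith), add_zero]

theorem N_ups (k : ℕ) : ∀ {d v : ℝ}, 1 ≤ d → (∀ j < k, 2 ^ (j + 1) * v < d + j + 1) →
    N d v = N (d + k) (2 ^ k * v) := by
  induction k with
  | zero => intro d v _ _; simp
  | succ k ih =>
    intro d v hd h
    have h1 := h k (Nat.lt_succ_self k)
    have hk : (0 : ℝ) ≤ k := Nat.cast_nonneg k
    rw [ih hd fun j hj => h j (by omega), N_up (by linarith) (by rw [pow_succ] at h1; linarith)]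
    congr 1
    · push_cast; ring
    · ring

theorem N_downs (m : ℕ) : ∀ {e : ℝ}, 0 < e → N (m + 1) (m + 1 + e) = N 1 (1 + 2 ^ m * e) := by
  induction m with
  | zero => intro e _; simp
  | succ m ih =>
    intro e he
    have hm : (0 : ℝ) ≤ m := Nat.cast_nonneg m
    have h3 : (2 / 3 / 2 ^ (m + 3) : ℝ) ≤ 2 / 3 :=
      div_le_self (by norm_num) (one_le_pow₀ (by norm_num))
    rw [N_split (by push_cast; linarith), N_top (m + 3) (by push_cast; ring) (by push_cast; linarith),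
      zero_add, pow_succ, mul_assoc, ← ih (by linarith)]
    congr 1 <;> push_cast <;> ring

theorem N_event (d : ℕ) (hd : 2 ≤ d) {y : ℝ} (h0 : 0 < y) (h2 : y < 2) :
    N d ((d + 1 + y / 2 ^ (d + 1)) / 2) = N 1 (1 + y / 2) + N (2 * d) y := by
  have hp : (0 : ℝ) < 2 ^ (d + 1) := by positivity
  have he : 0 < y / 2 ^ (d + 1) := by positivity
  have hd' : (2 : ℝ) ≤ d := by exact_mod_cast hd
  rw [N_split (by linarith)]
  congr 1
  · have := N_downs d he
    rw [show (2 : ℝ) ^ d * (y / 2 ^ (d + 1)) = y / 2 by rw [pow_succ]; field_simp] at this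
    rw [← this]; congr 1; ring
  · have := N_ups (d + 1) (d := (d : ℝ) - 1) (v := y / 2 ^ (d + 1)) (by linarith) (fun j hj => by
      have h1 : (2 : ℝ) ^ (j + 1) ≤ 2 ^ (d + 1) := pow_le_pow_right₀ (by norm_num) (by omega)
      have h3 : 2 ^ (j + 1) * (y / 2 ^ (d + 1)) ≤ y := by
        rw [← mul_div_assoc, div_le_iff₀ hp]; nlinarith
      have : (0 : ℝ) ≤ j := Nat.cast_nonneg j
      linarith)
    rw [show (2 : ℝ) ^ (d + 1) * (y / 2 ^ (d + 1)) = y by field_simp] at this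
    rw [show 2 * ((d + 1 + y / 2 ^ (d + 1)) / 2) - d - 1 = y / 2 ^ (d + 1) by ring, this]
    congr 1; push_cast; ring

def Q (h : ℕ) : Prop := ∃ α β : ℝ, 0 < β ∧ ∀ v : ℝ, 1 ≤ v → v < 2 →
  1 / 4 ≤ α + β * v ∧ α + β * v < 1 / 2 ∧ N 0 (α + β * v) = 2 * N h v

def E (d : ℕ) : Prop := ∃ α β : ℝ, 0 < β ∧ ∀ y : ℝ, 0 < y → y < 2 →
  1 / 4 ≤ α + β * y ∧ α + β * y < 1 / 2 ∧
    N 0 (α + β * y) = 2 * (N 1 (1 + y / 2) + N (2 * d) y)

theorem Q_two : Q 2 := by
  refine ⟨0, 1 / 4, by norm_num, fun v h1 h2 => ⟨by linarith, by linarith, ?_⟩⟩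
  rw [N_zero (by linarith), N_up le_rfl (by linarith)]
  congr 2
  · norm_num
  · ring

theorem Q_of_E {d : ℕ} (h : E d) : Q (2 * d) := by
  obtain ⟨α, β, hβ, h⟩ := h
  refine ⟨α, β, hβ, fun v h1 h2 => ?_⟩
  obtain ⟨a, b, c⟩ := h v (by linarith) h2
  refine ⟨a, b, ?_⟩
  rw [c, N_top 1 (by norm_num) (by norm_num; linarith), zero_add]
  push_cast; rfl

theorem E_of_Q {h : ℕ} (h2 : 2 ≤ h) (hQ : Q h) : ∃ d, h ≤ d ∧ E d := by
  obtain ⟨α, β, hβ, hQ⟩ := hQ
  have hex : ∃ k : ℕ, h + k + 1 < 2 ^ (k + 2) := by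
    refine ⟨h, ?_⟩
    have := Nat.lt_two_pow_self (n := h)
    rw [pow_add]; omega
  classical
  set k := Nat.find hex with hk
  have hk1 : h + k + 1 < 2 ^ (k + 2) := Nat.find_spec hex
  have hk2 : ∀ j < k, 2 ^ (j + 2) ≤ h + j + 1 := fun j hj => not_lt.1 (Nat.find_min hex hj)
  have hk3 : 2 ^ (k + 1) ≤ h + k + 1 := by
    rcases Nat.eq_zero_or_pos k with h0 | h0
    · rw [h0]; omega
    · have := hk2 (k - 1) (by omega)
      rw [show k - 1 + 2 = k + 1 by omega] at this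
      omega
  have hp : (0 : ℝ) < 2 ^ (k + 1) := by positivity
  have hq : (0 : ℝ) < 2 ^ (h + k + 1) := by positivity
  refine ⟨h + k, by omega, α + β * ((h + k + 1) / 2 ^ (k + 1)),
    β / 2 ^ (h + k + 1) / 2 ^ (k + 1), by positivity, fun y h0 h1 => ?_⟩
  have he : y / 2 ^ (h + k + 1) < 1 := by
    rw [div_lt_one hq]
    have : (2 : ℝ) ^ 1 ≤ 2 ^ (h + k + 1) := pow_le_pow_right₀ (by norm_num) (by omega)
    linarith
  have he0 : 0 < y / 2 ^ (h + k + 1) := by positivity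
  have hv1 : 1 ≤ (h + k + 1 + y / 2 ^ (h + k + 1)) / 2 ^ (k + 1) := by
    rw [le_div_iff₀ hp]
    have : (2 : ℝ) ^ (k + 1) ≤ h + k + 1 := by exact_mod_cast hk3
    linarith
  have hv2 : (h + k + 1 + y / 2 ^ (h + k + 1)) / 2 ^ (k + 1) < 2 := by
    rw [div_lt_iff₀ hp]
    have : (h : ℝ) + k + 1 + 1 ≤ 2 ^ (k + 2) := by exact_mod_cast hk1
    rw [pow_succ] at this
    linarith
  have hh : (2 : ℝ) ≤ h := by exact_mod_cast h2
  obtain ⟨a, b, c⟩ := hQ _ hv1 hv2
  have e : α + β * ((h + k + 1) / 2 ^ (k + 1)) + β / 2 ^ (h + k + 1) / 2 ^ (k + 1) * y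
      = α + β * ((h + k + 1 + y / 2 ^ (h + k + 1)) / 2 ^ (k + 1)) := by field_simp; ring
  rw [e]
  refine ⟨a, b, ?_⟩
  rw [c, N_ups k (by linarith) (fun j hj => by
    have h4 : (2 : ℝ) ^ (j + 2) ≤ h + j + 1 := by exact_mod_cast hk2 j hj
    have h5 : (0 : ℝ) < 2 ^ (j + 1) := by positivity
    have := mul_lt_mul_of_pos_left hv2 h5
    rw [pow_succ] at h4
    linarith), ← N_event (h + k) (by omega) h0 h1]
  congr 2
  · push_cast; ring
  · push_cast; rw [pow_succ 2 k]; field_simp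

theorem E_large (H : ℕ) : ∃ d, H ≤ d ∧ 2 ≤ d ∧ E d := by
  induction H with
  | zero =>
    obtain ⟨d, h1, h2⟩ := E_of_Q le_rfl Q_two
    exact ⟨d, by omega, h1, h2⟩
  | succ H ih =>
    obtain ⟨d, h1, h2, h3⟩ := ih
    obtain ⟨d', h4, h5⟩ := E_of_Q (by omega) (Q_of_E h3)
    exact ⟨d', by omega, by omega, h5⟩

end Pool.Agent.H.MP_f54a22_an
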