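import Pool.Agent.H.MP_f54a22_an.A

namespace Pool.Agent.H.MP_f54a22_an
open Set MeasureTheory Pool.Agent.H.MP_4a5b11_an

theorem vol_aff (c : ℝ) (s : Set ℝ) :
    volume ((fun v : ℝ => 2 * v - c) ⁻¹' s) = ENNReal.ofReal (1 / 2) * volume s := by
  have : (fun v : ℝ => 2 * v - c) ⁻¹' s = (fun v => 2 * v) ⁻¹' ((fun v => v + -c) ⁻¹' s) := by
    ext v; simp [sub_eq_add_neg]
  rw [this, Real.volume_preimage_mul_left two_ne_zero, measure_preimage_add_right]
  norm_num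

def Bad (k : ℕ) (d : ℕ) : Set ℝ :=
  {v | 0 ≤ v ∧ v < d ∧ ∃ a ∈ R d v, ∃ b ∈ R d v, (1 / 2 : ℝ) ^ k < |a - b|}

theorem Bad_zero (d : ℕ) : Bad 0 d = ∅ :=
  eq_empty_of_forall_notMem fun v ⟨_, _, a, ha, b, hb, h⟩ => by
    rw [pow_zero, lt_abs] at h
    rcases h with h | h <;> linarith [ha.1, ha.2.1, hb.1, hb.2.1]

theorem Bad_zero' (k : ℕ) : Bad k 0 = ∅ :=
  eq_empty_of_forall_notMem fun v ⟨h0, h1, _⟩ => by simp at h1; linarith

theorem Bad_step (k d : ℕ) : Bad (k + 1) (d + 1) ⊆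
    ((fun v : ℝ => 2 * v - 0) ⁻¹' Bad k (d + 2) ∪ (fun v : ℝ => 2 * v - (d + 2)) ⁻¹' Bad k d) ∪
      (fun v : ℝ => 2 * v - (d + 2)) ⁻¹' Icc 0 (2 / 3 / 2 ^ (d + 2)) := by
  rintro v ⟨h0, h1, a, ha, b, hb, h⟩
  have hd : (0 : ℝ) ≤ d := Nat.cast_nonneg d
  push_cast at h1 ha hb
  rw [R_eq] at ha hb
  rcases lt_or_ge (2 * v) (d + 2) with c | c
  · rw [R_neg (d := d + 1 - 1) (by linarith) (by linarith), image_empty, union_empty] at ha hb
    obtain ⟨a, ha, rfl⟩ := ha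
    obtain ⟨b, hb, rfl⟩ := hb
    have e : ((d + 2 : ℕ) : ℝ) = d + 1 + 1 := by push_cast; ring
    refine Or.inl (Or.inl ⟨by simp only; linarith, by simp only; rw [e]; linarith,
      a, by simp only [e, sub_zero]; exact ha, b, by simp only [e, sub_zero]; exact hb, ?_⟩)
    rw [pow_succ, lt_abs] at h
    rw [lt_abs]
    simp only at h
    rcases h with h | h
    · left; linarith
    · right; linarith
  · rcases le_or_gt (2 * v - (d + 2)) (2 / 3 / 2 ^ (d + 2)) with c' | c'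
    · exact Or.inr ⟨by simp only; linarith, c'⟩
    · rw [R_top (d + 2) (by push_cast; ring) (by linarith), image_empty, empty_union] at ha hb
      obtain ⟨a, ha, rfl⟩ := ha
      obtain ⟨b, hb, rfl⟩ := hb
      have e1 : (d : ℝ) + 1 - 1 = d := by ring
      have e2 : 2 * v - (d + 1) - 1 = 2 * v - (d + 2) := by ring
      rw [e1, e2] at ha hb
      refine Or.inl (Or.inr ⟨by simp only; linarith, by simp only; linarith, a, ha, b, hb, ?_⟩)
      rw [pow_succ, lt_abs] at h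
      rw [lt_abs]
      simp only at h
      rcases h with h | h
      · left; linarith
      · right; linarith

theorem vol_Bad (k : ℕ) : ∀ d : ℕ, volume (Bad k d) ≤ ENNReal.ofReal (2 / 3 * (1 - 1 / 2 ^ d)) := by
  induction k with
  | zero => intro d; rw [Bad_zero, measure_empty]; exact bot_le
  | succ k ih =>
    intro d
    cases d with
    | zero => rw [Bad_zero', measure_empty]; exact bot_le
    | succ d =>
      have hp : ∀ m : ℕ, (0 : ℝ) ≤ 2 / 3 * (1 - 1 / 2 ^ m) := fun m => by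
        have : (1 : ℝ) / 2 ^ m ≤ 1 := div_le_self (by norm_num) (one_le_pow₀ (by norm_num))
        linarith
      refine (measure_mono (Bad_step k d)).trans ((measure_union_le _ _).trans ?_)
      refine (add_le_add (measure_union_le _ _) le_rfl).trans ?_
      rw [vol_aff, vol_aff, vol_aff, Real.volume_Icc, sub_zero]
      refine (add_le_add (add_le_add (mul_le_mul_right (ih _) _) (mul_le_mul_right (ih _) _))
        le_rfl).trans (le_of_eq ?_)
      have h1 := hp d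
      have h2 := hp (d + 2)
      rw [← ENNReal.ofReal_mul (by norm_num), ← ENNReal.ofReal_mul (by norm_num),
        ← ENNReal.ofReal_mul (by norm_num), ← ENNReal.ofReal_add (by positivity) (by positivity),
        ← ENNReal.ofReal_add (by positivity) (by positivity)]
      congr 1
      rw [pow_succ, pow_succ]; field_simp; ring

theorem vol_bad (d : ℕ) : volume {v : ℝ | 0 ≤ v ∧ v < d ∧ N d v ≠ 1} ≤ 1 := by
  have hm : Monotone fun k => Bad k d := by
    refine monotone_nat_of_le_succ fun k v ⟨h0, h1, a, ha, b, hb, h⟩ =>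
      ⟨h0, h1, a, ha, b, hb, lt_of_le_of_lt ?_ h⟩
    exact pow_le_pow_of_le_one (by norm_num) (by norm_num) (Nat.le_succ k)
  have hs : {v : ℝ | 0 ≤ v ∧ v < d ∧ N d v ≠ 1} ⊆ ⋃ k, Bad k d := by
    rintro v ⟨h0, h1, h⟩
    have hc : ContinuousOn (fun t : ℝ => T t + d * t) (Icc 0 1) :=
      (T_cont.add (continuous_const.mul continuous_id)).continuousOn
    obtain ⟨t, ht, hv⟩ := intermediate_value_Icc zero_le_one hc
      (show v ∈ Icc (T 0 + d * 0) (T 1 + d * 1) by rw [T_zero, T_one]; constructor <;> linarith)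
    have ht' : t ∈ R d v := ⟨ht.1, ht.2, hv⟩
    by_contra hn
    refine h (encard_eq_one.2 ⟨t, eq_singleton_iff_unique_mem.2 ⟨ht', fun s hs => ?_⟩⟩)
    by_contra hne
    obtain ⟨k, hk⟩ := exists_pow_lt_of_lt_one (abs_pos.2 (sub_ne_zero.2 hne))
      (show (1 / 2 : ℝ) < 1 by norm_num)
    exact hn (mem_iUnion.2 ⟨k, h0, h1, s, hs, t, ht', hk⟩)
  refine (measure_mono hs).trans ?_
  rw [hm.measure_iUnion]
  refine iSup_le fun k => (vol_Bad k d).trans ?_
  rw [ENNReal.ofReal_le_one]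
  have : (0 : ℝ) ≤ 1 / 2 ^ d := by positivity
  linarith

theorem vol_low (k d : ℕ) (h : 2 ^ (k + 1) ≤ d) :
    volume {v : ℝ | 0 ≤ v ∧ v < 2 ∧ N d v ≠ 1} ≤ ENNReal.ofReal (1 / 2 ^ k) := by
  have h' : (2 : ℝ) ^ (k + 1) ≤ d := by exact_mod_cast h
  have hp : (0 : ℝ) < 2 ^ k := by positivity
  have h1 : (1 : ℝ) ≤ 2 ^ k := one_le_pow₀ (by norm_num)
  have hk : (0 : ℝ) ≤ k := Nat.cast_nonneg k
  rw [pow_succ] at h'
  have hs : {v : ℝ | 0 ≤ v ∧ v < 2 ∧ N d v ≠ 1} ⊆ (fun v => 2 ^ k * v) ⁻¹'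
      {v : ℝ | 0 ≤ v ∧ v < (d + k : ℕ) ∧ N (d + k : ℕ) v ≠ 1} := by
    rintro v ⟨h0, h2, h3⟩
    refine ⟨by positivity, by push_cast; nlinarith, ?_⟩
    push_cast
    rwa [← N_ups k (by linarith) fun j hj => ?_]
    have h4 : (2 : ℝ) ^ (j + 1) ≤ 2 ^ k := pow_le_pow_right₀ (by norm_num) (by omega)
    have : (0 : ℝ) ≤ j := Nat.cast_nonneg j
    have h5 : (0 : ℝ) < 2 ^ (j + 1) := by positivity
    nlinarith
  refine (measure_mono hs).trans ?_
  rw [Real.volume_preimage_mul_left hp.ne', abs_of_pos (by positivity), one_div]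
  exact (mul_le_mul_right (vol_bad _) _).trans (le_of_eq (mul_one _))

theorem thin {A : Set ℝ} (hA : MeasurableSet A) (h0 : 0 < volume A) (hA2 : A ⊆ Ioo 0 2) :
    ∃ d, E d ∧ ∃ B ⊆ A, MeasurableSet B ∧ 0 < volume B ∧ ∀ y ∈ B, N (2 * d) y = 1 := by
  obtain ⟨k, hk⟩ : ∃ k : ℕ, ENNReal.ofReal (1 / 2 ^ k) < volume A := by
    obtain ⟨r, hr0, hr⟩ := ENNReal.lt_iff_exists_real_btwn.1 h0
    have hr1 : 0 < r := ENNReal.ofReal_pos.1 hr.1
    obtain ⟨k, hk⟩ := exists_pow_lt_of_lt_one hr1 (show (1 / 2 : ℝ) < 1 by norm_num)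
    refine ⟨k, lt_of_le_of_lt (ENNReal.ofReal_le_ofReal ?_) hr.2⟩
    rw [one_div_pow] at hk; exact hk.le
  obtain ⟨d, h1, -, h3⟩ := E_large (2 ^ (k + 1))
  have hv := vol_low k (2 * d) (by omega)
  set C := {v : ℝ | 0 ≤ v ∧ v < 2 ∧ N (2 * d : ℕ) v ≠ 1}
  refine ⟨d, h3, A \ toMeasurable volume C, sdiff_subset,
    hA.diff (measurableSet_toMeasurable _ _), ?_, fun y hy => ?_⟩
  · refine lt_of_lt_of_le ?_ le_measure_sdiff
    rw [measure_toMeasurable, tsub_pos_iff_lt]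
    exact lt_of_le_of_lt hv hk
  · by_contra hne
    refine hy.2 (subset_toMeasurable _ _ ⟨(hA2 hy.1).1.le, (hA2 hy.1).2, ?_⟩)
    push_cast; exact hne

theorem aff {A : Set ℝ} (hA : MeasurableSet A) (h0 : 0 < volume A) (α : ℝ) {β : ℝ} (hβ : 0 < β) :
    ∃ B : Set ℝ, MeasurableSet B ∧ 0 < volume B ∧ ∀ x ∈ B, ∃ y ∈ A, x = α + β * y := by
  refine ⟨(fun x => x + -α) ⁻¹' ((fun x => β⁻¹ * x) ⁻¹' A), ?_, ?_, fun x hx => ⟨_, hx, ?_⟩⟩
  · exact (measurable_add_const _) ((measurable_const_mul _) hA)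
  · rw [measure_preimage_add_right, Real.volume_preimage_mul_left (by positivity)]
    exact ENNReal.mul_pos (by simp [hβ.ne']) h0.ne'
  · field_simp; ring

def P (n : ℕ) : Prop := ∃ A : Set ℝ, MeasurableSet A ∧ 0 < volume A ∧
  ∀ y ∈ A, 1 / 6 < y ∧ y ≤ 2 / 3 ∧ N 0 y = (2 * n : ℕ)

theorem N_hump {y : ℝ} (h : 1 / 6 < y) : N 1 (1 + y / 2) = N 0 y := by
  rw [N_split (by linarith), N_top 2 (by norm_num) (by norm_num; linarith), zero_add]
  congr 1 <;> ring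

theorem P_one : P 1 := by
  obtain ⟨d, ⟨α, β, hβ, hE⟩, B, hB, hBm, hB0, hB1⟩ := thin (A := Ioo 1 2) measurableSet_Ioo
    (by simp only [Real.volume_Ioo, ENNReal.ofReal_pos]; norm_num)
    (fun y hy => ⟨by linarith [hy.1], hy.2⟩)
  obtain ⟨C, h1, h2, h3⟩ := aff hBm hB0 α hβ
  refine ⟨C, h1, h2, fun x hx => ?_⟩
  obtain ⟨y, hy, rfl⟩ := h3 x hx
  have := (hB hy).1
  obtain ⟨a, b, c⟩ := hE y (by linarith) (hB hy).2
  refine ⟨by linarith, by linarith, ?_⟩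
  rw [c, hB1 y hy, N_top 1 (by norm_num) (by norm_num; linarith)]
  norm_num

theorem P_even {n : ℕ} (h : P n) : P (2 * n) := by
  obtain ⟨A, hA, hA0, hA1⟩ := h
  obtain ⟨C, h1, h2, h3⟩ := aff hA hA0 (1 / 2) (β := 1 / 4) (by norm_num)
  refine ⟨C, h1, h2, fun x hx => ?_⟩
  obtain ⟨y, hy, rfl⟩ := h3 x hx
  obtain ⟨a, b, c⟩ := hA1 y hy
  refine ⟨by linarith, by linarith, ?_⟩
  rw [N_zero (by linarith), show 2 * (1 / 2 + 1 / 4 * y) = 1 + y / 2 by ring, N_hump a, c]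
  push_cast; ring

theorem P_odd {n : ℕ} (h : P n) : P (2 * n + 1) := by
  obtain ⟨A, hA, hA0, hA1⟩ := h
  obtain ⟨d, ⟨α, β, hβ, hE⟩, B, hB, hBm, hB0, hB1⟩ := thin hA hA0
    (fun y hy => ⟨by linarith [(hA1 y hy).1], by linarith [(hA1 y hy).2.1]⟩)
  obtain ⟨C, h1, h2, h3⟩ := aff hBm hB0 α hβ
  refine ⟨C, h1, h2, fun x hx => ?_⟩
  obtain ⟨y, hy, rfl⟩ := h3 x hx
  obtain ⟨a', b', c'⟩ := hA1 y (hB hy)
  obtain ⟨a, b, c⟩ := hE y (by linarith) (by linarith)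
  refine ⟨by linarith, by linarith, ?_⟩
  rw [c, hB1 y hy, N_hump a', c']
  push_cast; ring

theorem P_all (n : ℕ) : 1 ≤ n → P n := by
  induction n using Nat.strong_induction_on with
  | _ n ih =>
  intro hn
  rcases Nat.even_or_odd' n with ⟨m, rfl | rfl⟩
  · exact P_even (ih m (by omega) (by omega))
  · rcases Nat.eq_zero_or_pos m with rfl | hm
    · exact P_one
    · exact P_odd (ih m (by omega) hm)

end Pool.Agent.H.MP_f54a22_an
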